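import Pool.Agent.K4H49.IR.Spec

set_option autoImplicit false

open Finset

namespace Pool.Agent.K4H29.IR

open Pool.Agent.K4H49.IR

variable {V : Type}

/-- the star with centre `c` and leaves `L` as a subgraph -/
def starSub (G : SimpleGraph V) (c : V) (L : Finset V) : G.Subgraph where
  verts := {v | v = c ∨ v ∈ L}
  Adj a b := G.Adj a b ∧ ((a = c ∧ b ∈ L) ∨ (b = c ∧ a ∈ L))
  adj_sub h := h.1
  edge_vert := by
    rintro a b ⟨h, ⟨h1, h2⟩ | ⟨h1, h2⟩⟩
    · exact Or.inl h1
    · exact Or.inr h2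
  symm := ⟨by
    rintro a b ⟨h, h1⟩
    exact ⟨h.symm, h1.symm⟩⟩

theorem iso_star (G : SimpleGraph V) (c : V) (L : Finset V) (n : ℕ)
    (hL : L.card = n) (hc : ∀ l ∈ L, G.Adj c l) : Nonempty (star n ≃g (starSub G c L).coe) := by
  classical
  have hcL : c ∉ L := fun h => (hc c h).ne rfl
  let e := L.equivFinOfCardEq hL
  let f : Fin 1 ⊕ Fin n → (starSub G c L).verts := fun u =>
    match u with
    | .inl _ => ⟨c, Or.inl rfl⟩
    | .inr i => ⟨(e.symm i).1, Or.inr (e.symm i).2⟩
  have hf : Function.Bijective f := by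
    constructor
    · rintro (a | i) (b | j) h
      · exact congrArg _ (Subsingleton.elim _ _)
      · have h1 : c = (e.symm j).1 := congrArg Subtype.val h
        exact absurd (h1 ▸ (e.symm j).2) hcL
      · have h1 : (e.symm i).1 = c := congrArg Subtype.val h
        exact absurd (h1 ▸ (e.symm i).2) hcL
      · have h1 : (e.symm i).1 = (e.symm j).1 :=
          congrArg (fun z : (starSub G c L).verts => z.1) h
        have h2 := e.symm.injective (Subtype.ext h1)
        rw [h2]
    · rintro ⟨v, hv | hv⟩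
      · exact ⟨.inl 0, Subtype.ext hv.symm⟩
      · refine ⟨.inr (e ⟨v, hv⟩), Subtype.ext ?_⟩
        show (e.symm (e ⟨v, hv⟩)).1 = v
        rw [Equiv.symm_apply_apply]
  refine ⟨⟨Equiv.ofBijective f hf, ?_⟩⟩
  rintro (a | i) (b | j)
  · simp only [Equiv.ofBijective_apply, SimpleGraph.Subgraph.coe_adj, completeBipartiteGraph_adj]
    constructor
    · intro h
      exact absurd rfl (h.1.ne)
    · intro h
      simp at h
  · simp only [Equiv.ofBijective_apply, SimpleGraph.Subgraph.coe_adj, completeBipartiteGraph_adj]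
    constructor
    · intro h
      simp
    · intro h
      exact ⟨hc _ (e.symm j).2, Or.inl ⟨rfl, (e.symm j).2⟩⟩
  · simp only [Equiv.ofBijective_apply, SimpleGraph.Subgraph.coe_adj, completeBipartiteGraph_adj]
    constructor
    · intro h
      simp
    · intro h
      exact ⟨(hc _ (e.symm i).2).symm, Or.inr ⟨rfl, (e.symm i).2⟩⟩
  · simp only [Equiv.ofBijective_apply, SimpleGraph.Subgraph.coe_adj, completeBipartiteGraph_adj]
    constructor
    · rintro ⟨h, ⟨h1, h2⟩ | ⟨h1, h2⟩⟩
      · have h3 : (e.symm i).1 = c := h1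
        exact absurd (h3 ▸ (e.symm i).2) hcL
      · have h3 : (e.symm j).1 = c := h1
        exact absurd (h3 ▸ (e.symm j).2) hcL
    · intro h
      simp at h

theorem exists_star (G : SimpleGraph V) (n : ℕ) (H : G.Subgraph)
    (h : Nonempty (star n ≃g H.coe)) :
    ∃ (c : V) (L : Finset V), L.card = n ∧ (∀ l ∈ L, G.Adj c l) ∧ starSub G c L = H := by
  classical
  obtain ⟨e⟩ := h
  have key : ∀ i : Fin n, H.Adj (e (.inl 0)).1 (e (.inr i)).1 := by
    intro i
    have h1 : H.coe.Adj (e (.inl 0)) (e (.inr i)) := by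
      rw [e.map_adj_iff]; simp [completeBipartiteGraph_adj]
    exact h1
  refine ⟨(e (.inl 0)).1, univ.image (fun i : Fin n => (e (.inr i)).1), ?_, ?_, ?_⟩
  · rw [card_image_of_injective, card_univ, Fintype.card_fin]
    intro i j h
    have h1 := e.injective (Subtype.ext h)
    simpa using h1
  · intro l hl
    obtain ⟨i, -, rfl⟩ := mem_image.1 hl
    exact H.adj_sub (key i)
  · apply SimpleGraph.Subgraph.ext
    · ext v
      constructor
      · rintro (rfl | hv)
        · exact (e (.inl 0)).2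
        · obtain ⟨i, -, rfl⟩ := mem_image.1 hv
          exact (e (.inr i)).2
      · intro hv
        obtain ⟨u, hu⟩ := e.surjective ⟨v, hv⟩
        rcases u with a | i
        · left
          have : a = 0 := Subsingleton.elim _ _
          rw [← this, hu]
        · right
          exact mem_image.2 ⟨i, mem_univ _, by rw [hu]⟩
    · ext a b
      constructor
      · rintro ⟨-, ⟨rfl, hb⟩ | ⟨rfl, ha⟩⟩
        · obtain ⟨i, -, rfl⟩ := mem_image.1 hb
          exact key i
        · obtain ⟨i, -, rfl⟩ := mem_image.1 ha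
          exact (key i).symm
      · intro hab
        refine ⟨H.adj_sub hab, ?_⟩
        obtain ⟨u, hu⟩ := e.surjective ⟨a, H.edge_vert hab⟩
        obtain ⟨w, hw⟩ := e.surjective ⟨b, H.edge_vert hab.symm⟩
        have h1 : H.coe.Adj (e u) (e w) := by rw [hu, hw]; exact hab
        rw [e.map_adj_iff, completeBipartiteGraph_adj] at h1
        rcases u with u | i <;> rcases w with w | j
        · simp at h1
        · left
          have : u = 0 := Subsingleton.elim _ _
          subst this
          exact ⟨by rw [hu], mem_image.2 ⟨j, mem_univ _, by rw [hw]⟩⟩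
        · right
          have : w = 0 := Subsingleton.elim _ _
          subst this
          exact ⟨by rw [hw], mem_image.2 ⟨i, mem_univ _, by rw [hu]⟩⟩
        · simp at h1

theorem starSub_inj (G : SimpleGraph V) (n : ℕ) (hn : 2 ≤ n) (c c' : V) (L L' : Finset V)
    (h1 : L.card = n) (h1' : L'.card = n)
    (h2 : ∀ l ∈ L, G.Adj c l) (h2' : ∀ l ∈ L', G.Adj c' l)
    (h : starSub G c L = starSub G c' L') : c = c' ∧ L = L' := by
  classical
  have hcL : c ∉ L := fun h => (h2 c h).ne rfl
  have hcL' : c' ∉ L' := fun h => (h2' c' h).ne rfl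
  have hadj : ∀ a b, (starSub G c L).Adj a b → (starSub G c' L').Adj a b := by
    intro a b hab; rw [← h]; exact hab
  have hcc : c = c' := by
    by_contra hne
    obtain ⟨l, hl, hlc⟩ := exists_mem_ne (by omega : 1 < L.card) c'
    rcases (hadj c l ⟨h2 l hl, Or.inl ⟨rfl, hl⟩⟩).2 with ⟨h3, -⟩ | ⟨h3, -⟩
    · exact hne h3
    · exact hlc h3
  subst hcc
  refine ⟨rfl, ?_⟩
  have hv : (starSub G c L).verts = (starSub G c L').verts := by rw [h]
  ext v
  have hv1 : (v = c ∨ v ∈ L) ↔ (v = c ∨ v ∈ L') := by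
    have := Set.ext_iff.1 hv v
    exact this
  constructor
  · intro hvL
    rcases hv1.1 (Or.inr hvL) with h3 | h3
    · exact absurd (h3 ▸ hvL) hcL
    · exact h3
  · intro hvL
    rcases hv1.2 (Or.inr hvL) with h3 | h3
    · exact absurd (h3 ▸ hvL) hcL'
    · exact h3

theorem card_contain [DecidableEq V] (N : Finset V) (x : V) (n : ℕ) (hn : 1 ≤ n) (hx : x ∈ N) :
    ((N.powersetCard n).filter (fun L => x ∈ L)).card = (N.card - 1).choose (n - 1) := by
  have h1 := card_filter_add_card_filter_not (s := N.powersetCard n) (fun L => x ∈ L)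
  have h2 : (N.powersetCard n).filter (fun L => ¬ x ∈ L) = (N.erase x).powersetCard n := by
    ext L
    simp only [mem_filter, mem_powersetCard]
    constructor
    · rintro ⟨⟨h3, h4⟩, h5⟩
      exact ⟨fun y hy => mem_erase.2 ⟨fun h => h5 (h ▸ hy), h3 hy⟩, h4⟩
    · rintro ⟨h3, h4⟩
      exact ⟨⟨fun y hy => mem_of_mem_erase (h3 hy), h4⟩, fun h => (mem_erase.1 (h3 h)).1 rfl⟩
  rw [h2, card_powersetCard, card_powersetCard, card_erase_of_mem hx] at h1
  obtain ⟨d, hd⟩ : ∃ d, N.card = d + 1 := ⟨N.card - 1, by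
    have := card_pos.2 ⟨x, hx⟩; omega⟩
  obtain ⟨m, rfl⟩ : ∃ m, n = m + 1 := ⟨n - 1, by omega⟩
  rw [hd] at h1 ⊢
  simp only [Nat.add_sub_cancel] at h1 ⊢
  have h3 := Nat.choose_succ_succ' d m
  omega

theorem star_count : StStar := by
  classical
  intro V _ _ G _ n hn x
  let P : Finset (Σ _ : V, Finset V) := (univ : Finset V).sigma
    (fun c => ((G.neighborFinset c).powersetCard n).filter (fun L => x = c ∨ x ∈ L))
  have hmem : ∀ p : (Σ _ : V, Finset V), p ∈ P ↔
      ((∀ l ∈ p.2, G.Adj p.1 l) ∧ p.2.card = n) ∧ (x = p.1 ∨ x ∈ p.2) := by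
    intro p
    simp only [P, mem_sigma, mem_univ, true_and, mem_filter, mem_powersetCard]
    constructor
    · rintro ⟨⟨h1, h2⟩, h3⟩
      exact ⟨⟨fun l hl => (G.mem_neighborFinset _ _).1 (h1 hl), h2⟩, h3⟩
    · rintro ⟨⟨h1, h2⟩, h3⟩
      exact ⟨⟨fun l hl => (G.mem_neighborFinset _ _).2 (h1 l hl), h2⟩, h3⟩
  have hset : {H : G.Subgraph | x ∈ H.verts ∧ Nonempty (star n ≃g H.coe)} =
      (fun p : (Σ _ : V, Finset V) => starSub G p.1 p.2) '' (P : Set (Σ _ : V, Finset V)) := by
    ext H
    constructor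
    · rintro ⟨h1, h2⟩
      obtain ⟨c, L, h3, h4, h5⟩ := exists_star G n H h2
      refine ⟨⟨c, L⟩, ?_, h5⟩
      rw [mem_coe, hmem]
      refine ⟨⟨h4, h3⟩, ?_⟩
      rw [← h5] at h1
      exact h1
    · rintro ⟨⟨c, L⟩, h1, rfl⟩
      rw [mem_coe, hmem] at h1
      exact ⟨h1.2, iso_star G c L n h1.1.2 h1.1.1⟩
  have hinj : Set.InjOn (fun p : (Σ _ : V, Finset V) => starSub G p.1 p.2)
      (P : Set (Σ _ : V, Finset V)) := by
    rintro ⟨c, L⟩ h1 ⟨c', L'⟩ h1' h
    rw [mem_coe, hmem] at h1 h1'
    obtain ⟨h2, h3⟩ := starSub_inj G n hn c c' L L' h1.1.2 h1'.1.2 h1.1.1 h1'.1.1 h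
    subst h2; subst h3; rfl
  unfold fdeg sn
  rw [hset, Set.InjOn.ncard_image hinj, Set.ncard_coe_finset]
  have hP : P.card = ∑ c, (((G.neighborFinset c).powersetCard n).filter
      (fun L => x = c ∨ x ∈ L)).card := card_sigma _ _
  rw [hP, ← add_sum_erase univ _ (mem_univ x)]
  congr 1
  · rw [filter_true_of_mem (fun L _ => Or.inl rfl), card_powersetCard, G.card_neighborFinset_eq_degree]
  · symm
    have hsub : G.neighborFinset x ⊆ univ.erase x := by
      intro y hy
      exact mem_erase.2 ⟨((G.mem_neighborFinset _ _).1 hy).ne', mem_univ _⟩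
    rw [← sum_subset hsub]
    · refine sum_congr rfl (fun y hy => ?_)
      have hxy : G.Adj x y := (G.mem_neighborFinset _ _).1 hy
      have h1 : ((G.neighborFinset y).powersetCard n).filter (fun L => x = y ∨ x ∈ L) =
          ((G.neighborFinset y).powersetCard n).filter (fun L => x ∈ L) := by
        refine filter_congr (fun L _ => ?_)
        constructor
        · rintro (h | h)
          · exact absurd h hxy.ne
          · exact h
        · exact Or.inr
      rw [h1, card_contain _ x n (by omega) ((G.mem_neighborFinset _ _).2 hxy.symm),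
        G.card_neighborFinset_eq_degree]
    · intro y hy hy2
      rw [card_eq_zero, filter_eq_empty_iff]
      intro L hL h
      rcases h with h | h
      · exact (mem_erase.1 hy).1 h.symm
      · apply hy2
        rw [G.mem_neighborFinset]
        exact ((G.mem_neighborFinset _ _).1 ((mem_powersetCard.1 hL).1 h)).symm

end Pool.Agent.K4H29.IR
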